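import Mathlib
import Pool.Agent.H53.TkA

namespace Pool.Agent.Results.MP_a721b7_an.Full

universe u

open Pool.Agent.H53.Tk

/-- `u` and `v` lie in one set `R(x)` that does not contain `c`. -/
def Step {X : Type u} (R : X → X → Prop) (c u v : X) : Prop :=
  ∃ x, R x u ∧ R x v ∧ ¬ R x c

/-- `a` is joined to `b` by a finite chain of sets `R(x)`, consecutive ones meeting,
none of which contains `c`. -/
def Linked {X : Type u} (R : X → X → Prop) (a b c : X) : Prop :=
  Relation.TransGen (Step R c) a b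

/-- No asteroidal triple. -/
def NoAsteroidalTriple {X : Type u} (R : X → X → Prop) : Prop :=
  ¬ ∃ a b c, Linked R a b c ∧ Linked R b c a ∧ Linked R a c b

/-- Countability condition. -/
def CountablyGenerated {X : Type u} (R : X → X → Prop) : Prop :=
  ∃ D : Set X, D.Countable ∧ ∀ x y, R x y →
    ∃ d₁ ∈ D, ∃ d₂ ∈ D, R d₁ y ∧ R d₂ y ∧ ∀ z, R d₁ z → R d₂ z → R x z

theorem cofinal {X : Type u} (B : Set X) (φ : X → ℝ) :
    ∃ D : Set X, D ⊆ B ∧ D.Countable ∧ ∀ x ∈ B, ∃ d ∈ D, φ x ≤ φ d := by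
  classical
  by_cases hm : ∃ m ∈ B, ∀ x ∈ B, φ x ≤ φ m
  · obtain ⟨m, hm, h⟩ := hm
    exact ⟨{m}, by simpa using hm, Set.countable_singleton m,
      fun x hx => ⟨m, rfl, h x hx⟩⟩
  push Not at hm
  let T := {r : ℚ // ∃ x ∈ B, (r : ℝ) < φ x}
  choose c hc1 hc2 using fun r : T => r.2
  refine ⟨Set.range c, ?_, Set.countable_range c, fun x hx => ?_⟩
  · rintro _ ⟨r, rfl⟩; exact hc1 r
  · obtain ⟨x', hx', hlt⟩ := hm x hx
    obtain ⟨r, hr1, hr2⟩ := exists_rat_btwn hlt
    exact ⟨c ⟨r, x', hx', hr2⟩, ⟨_, rfl⟩, (hr1.trans (hc2 ⟨r, x', hx', hr2⟩)).le⟩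

theorem sys {X : Type u} (R : X → X → Prop) (h : NoAsteroidalTriple R) :
    Sys (fun a b c => a ≠ c ∧ Relation.ReflTransGen (Step R c) a b) := by
  have hne : ∀ a b c, a ≠ c → Relation.ReflTransGen (Step R c) a b → b ≠ c := by
    intro a b c hac H
    induction H with
    | refl => exact hac
    | tail _ h2 _ =>
      obtain ⟨x, _, h3, h4⟩ := h2
      rintro rfl
      exact h4 h3
  have hsym : ∀ c, Std.Symm (Step R c) := fun c =>
    ⟨fun u v ⟨x, h1, h2, h3⟩ => ⟨x, h2, h1, h3⟩⟩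
  refine ⟨fun a c hac => ⟨hac, .refl⟩, ?_, ?_, ?_, ?_, ?_⟩
  · rintro a b c ⟨h1, h2⟩
    refine ⟨hne a b c h1 h2, ?_⟩
    clear h1
    induction h2 with
    | refl => exact .refl
    | tail _ h3 ih => exact .head ((hsym c).symm _ _ h3) ih
  · rintro a b d c ⟨h1, h2⟩ ⟨_, h3⟩
    exact ⟨h1, h2.trans h3⟩
  · rintro a b c d ⟨h1, h2⟩
    by_cases had : a = d
    · exact Or.inl ⟨h1, had ▸ .refl⟩
    induction h2 with
    | refl => exact Or.inr ⟨had, .refl⟩
    | tail h3 h4 ih =>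
      rcases ih with ih | ih
      · exact Or.inl ih
      · obtain ⟨x, h5, h6, h7⟩ := h4
        by_cases hd : R x d
        · exact Or.inl ⟨h1, h3.tail ⟨x, h5, hd, h7⟩⟩
        · exact Or.inr ⟨had, ih.2.tail ⟨x, h5, h6, hd⟩⟩
  · rintro a c ⟨h1, h2⟩
    exact hne a c c h1 h2 rfl
  · rintro a b c ⟨h1, h2⟩ ⟨h3, h4⟩ ⟨h5, h6⟩
    apply h
    refine ⟨a, b, c, ?_, ?_, ?_⟩
    · exact (Relation.reflTransGen_iff_eq_or_transGen.1 h2).resolve_left h3
    · exact (Relation.reflTransGen_iff_eq_or_transGen.1 h4).resolve_left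
        (hne a b c h1 h2).symm
    · exact (Relation.reflTransGen_iff_eq_or_transGen.1 h6).resolve_left h1.symm

theorem half {X : Type u} (R : X → X → Prop) (lt : X → X → Prop)
    (htr : ∀ a b c, lt a b → lt b c → lt a c) (htot : ∀ a b, a ≠ b → lt a b ∨ lt b a)
    (hcv : ∀ x a b c, R x a → R x b → lt a c → lt c b → R x c) (d : ℕ → X)
    (hd : ∀ x y, R x y → ∃ n₁ n₂, R (d n₁) y ∧ R (d n₂) y ∧
      ∀ z, R (d n₁) z → R (d n₂) z → R x z) :
    ∃ G : X → ℝ, (∀ y, 0 ≤ G y ∧ G y ≤ 2) ∧ (∀ y y', lt y y' → G y ≤ G y') ∧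
      ∀ x y, R x y → ∃ ε > 0, ε ≤ 1 ∧ ∀ y', ¬ R x y' → lt y y' → G y + ε ≤ G y' := by
  classical
  let t : ℕ → X → ℝ := fun n y =>
    if (∃ a, R (d n) a ∧ lt a y) ∧ ¬ R (d n) y then (1/2 : ℝ)^n else 0
  have t0 : ∀ n y, 0 ≤ t n y := by
    intro n y; simp only [t]; split_ifs <;> positivity
  have t1 : ∀ n y, t n y ≤ (1/2 : ℝ)^n := by
    intro n y; simp only [t]; split_ifs
    · exact le_rfl
    · positivity
  have ts : ∀ y, Summable (fun n => t n y) := fun y =>
    Summable.of_nonneg_of_le (fun n => t0 n y) (fun n => t1 n y) summable_geometric_two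
  have tm : ∀ n y y', lt y y' → t n y ≤ t n y' := by
    intro n y y' hy
    by_cases H : (∃ a, R (d n) a ∧ lt a y) ∧ ¬ R (d n) y
    · have H' : (∃ a, R (d n) a ∧ lt a y') ∧ ¬ R (d n) y' := by
        obtain ⟨⟨a, ha, hay⟩, hn⟩ := H
        exact ⟨⟨a, ha, htr _ _ _ hay hy⟩, fun h' => hn (hcv _ a y' y ha h' hay hy)⟩
      simp only [t, if_pos H, if_pos H', le_refl]
    · have : t n y = 0 := by simp only [t, if_neg H]
      rw [this]; exact t0 n y'
  refine ⟨fun y => ∑' n, t n y, fun y => ⟨tsum_nonneg (fun n => t0 n y), ?_⟩, ?_, ?_⟩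
  · rw [← tsum_geometric_two]
    exact (ts y).tsum_le_tsum (fun n => t1 n y) summable_geometric_two
  · intro y y' hy
    exact (ts y).tsum_le_tsum (fun n => tm n y y' hy) (ts y')
  · intro x y hxy
    obtain ⟨n₁, n₂, h1, h2, h3⟩ := hd x y hxy
    have key : ∃ n, R (d n) y ∧ ∀ y', ¬ R x y' → lt y y' → ¬ R (d n) y' := by
      by_contra hcon
      push Not at hcon
      obtain ⟨y1, a1, a2, a3⟩ := hcon n₁ h1
      obtain ⟨y2, b1, b2, b3⟩ := hcon n₂ h2
      by_cases he : y1 = y2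
      · exact a1 (h3 y1 a3 (he ▸ b3))
      rcases htot _ _ he with H | H
      · exact a1 (h3 y1 a3 (hcv _ y y2 y1 h2 b3 a2 H))
      · exact b1 (h3 y2 (hcv _ y y1 y2 h1 a3 b2 H) b3)
    obtain ⟨n, hn1, hn2⟩ := key
    refine ⟨(1/2 : ℝ)^n, by positivity, pow_le_one₀ (by norm_num) (by norm_num), ?_⟩
    intro y' hy' hlt
    have e1 : t n y = 0 := by
      simp only [t]; rw [if_neg]; exact fun H => H.2 hn1
    have e2 : t n y' = (1/2 : ℝ)^n := by
      simp only [t]; rw [if_pos]; exact ⟨⟨y, hn1, hlt⟩, hn2 y' hy' hlt⟩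
    have hs := (ts y').sub (ts y)
    have h4 := hs.le_tsum n (fun m _ => sub_nonneg.2 (tm m y y' hlt))
    rw [(ts y').tsum_sub (ts y), e1, e2] at h4
    show (∑' n, t n y) + _ ≤ ∑' n, t n y'
    linarith

theorem result {X : Type u} (R : X → X → Prop) :
    (∃ f g h : X → ℝ, ∀ x y, R x y ↔ (f x < g y ∧ g y < h x)) ↔
      (NoAsteroidalTriple R ∧ CountablyGenerated R) := by
  classical
  constructor
  · rintro ⟨f, g, h, H⟩
    constructor
    · have side : ∀ a b c, Linked R a b c →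
          (g a < g c ∧ g b < g c) ∨ (g c < g a ∧ g c < g b) := by
        have st : ∀ c u v, Step R c u v →
            (g u < g c ∧ g v < g c) ∨ (g c < g u ∧ g c < g v) := by
          rintro c u v ⟨x, h1, h2, h3⟩
          rw [H] at h1 h2 h3
          by_cases h4 : f x < g c
          · have h5 : h x ≤ g c := not_lt.1 (fun h5 => h3 ⟨h4, h5⟩)
            exact Or.inl ⟨by linarith [h1.2], by linarith [h2.2]⟩
          · exact Or.inr ⟨by linarith [h1.1], by linarith [h2.1]⟩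
        intro a b c hl
        induction hl with
        | single h1 => exact st _ _ _ h1
        | tail _ h2 ih =>
          rcases ih with ih | ih <;> rcases st _ _ _ h2 with h3 | h3
          · exact Or.inl ⟨ih.1, h3.2⟩
          · linarith [ih.2, h3.1]
          · linarith [ih.2, h3.1]
          · exact Or.inr ⟨ih.1, h3.2⟩
      rintro ⟨a, b, c, h1, h2, h3⟩
      rcases side _ _ _ h1 with h1 | h1 <;> rcases side _ _ _ h2 with h2 | h2 <;>
        rcases side _ _ _ h3 with h3 | h3 <;>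
        linarith [h1.1, h1.2, h2.1, h2.2, h3.1, h3.2]
    · let B : ℚ × ℚ → Set X := fun q => {x | f x < q.1 ∧ (q.2 : ℝ) < h x}
      choose D1 a1 a2 a3 using fun q => cofinal (B q) f
      choose D2 b1 b2 b3 using fun q => cofinal (B q) (fun x => - h x)
      refine ⟨(⋃ q, D1 q) ∪ (⋃ q, D2 q),
        (Set.countable_iUnion a2).union (Set.countable_iUnion b2), fun x y hxy => ?_⟩
      rw [H] at hxy
      obtain ⟨p, hp1, hp2⟩ := exists_rat_btwn hxy.1
      obtain ⟨q, hq1, hq2⟩ := exists_rat_btwn hxy.2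
      obtain ⟨d1, hd1, e1⟩ := a3 (p, q) x ⟨hp1, hq2⟩
      obtain ⟨d2, hd2, e2⟩ := b3 (p, q) x ⟨hp1, hq2⟩
      have m1 := a1 (p, q) hd1
      have m2 := b1 (p, q) hd2
      refine ⟨d1, Or.inl (Set.mem_iUnion.2 ⟨_, hd1⟩), d2, Or.inr (Set.mem_iUnion.2 ⟨_, hd2⟩),
        (H _ _).2 ⟨m1.1.trans hp2, hq1.trans m1.2⟩,
        (H _ _).2 ⟨m2.1.trans hp2, hq1.trans m2.2⟩, fun z h1 h2 => ?_⟩
      rw [H] at h1 h2 ⊢
      exact ⟨by linarith [h1.1], by linarith [h2.2]⟩
  · rintro ⟨hAT, D, hD, hgen⟩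
    rcases D.eq_empty_or_nonempty with hDe | hDe
    · refine ⟨fun _ => 0, fun _ => 0, fun _ => 0, fun x y => ⟨fun hxy => ?_, fun H => ?_⟩⟩
      · obtain ⟨d1, hd1, _⟩ := hgen x y hxy
        rw [hDe] at hd1
        exact hd1.elim
      · exact (lt_irrefl _ H.1).elim
    obtain ⟨d, hdD⟩ := hD.exists_eq_range hDe
    have hd : ∀ x y, R x y → ∃ n₁ n₂, R (d n₁) y ∧ R (d n₂) y ∧
        ∀ z, R (d n₁) z → R (d n₂) z → R x z := by
      intro x y hxy
      obtain ⟨d1, hd1, d2, hd2, H⟩ := hgen x y hxy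
      rw [hdD] at hd1 hd2
      obtain ⟨n1, rfl⟩ := hd1
      obtain ⟨n2, rfl⟩ := hd2
      exact ⟨n1, n2, H⟩
    obtain ⟨lt, htr, htot, -, hval⟩ := exists_order (sys R hAT)
    have hcv : ∀ x a b c, R x a → R x b → lt a c → lt c b → R x c := by
      intro x a b c ha hb h1 h2
      by_contra hc
      exact hval a b c h1 h2 ⟨fun he => hc (he ▸ ha), .single ⟨x, ha, hb, hc⟩⟩
    obtain ⟨G1, p1, p2, p3⟩ := half R lt htr htot hcv d hd
    obtain ⟨G2, q1, q2, q3⟩ := half R (fun a b => lt b a) (fun a b c h1 h2 => htr _ _ _ h2 h1)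
      (fun a b hab => (htot a b hab).symm) (fun x a b c ha hb h1 h2 => hcv x b a c hb ha h2 h1)
      d hd
    let g : X → ℝ := fun y => G1 y - G2 y
    have gb : ∀ y, -2 ≤ g y ∧ g y ≤ 2 := fun y => by
      have := p1 y; have := q1 y
      constructor <;> simp only [g] <;> linarith
    let Up : X → Set ℝ := fun x => insert 3 (g '' {y | ¬ R x y ∧ ∃ a, R x a ∧ lt a y})
    let Dn : X → Set ℝ := fun x => insert (-3) (g '' {y | ¬ R x y ∧ ∃ a, R x a ∧ lt y a})
    have hUp : ∀ x, BddBelow (Up x) := by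
      intro x
      refine ⟨-2, ?_⟩
      rintro _ (rfl | ⟨y, _, rfl⟩)
      · norm_num
      · exact (gb y).1
    have hDn : ∀ x, BddAbove (Dn x) := by
      intro x
      refine ⟨2, ?_⟩
      rintro _ (rfl | ⟨y, _, rfl⟩)
      · norm_num
      · exact (gb y).2
    refine ⟨fun x => if ∃ a, R x a then sSup (Dn x) else 0, g,
      fun x => if ∃ a, R x a then sInf (Up x) else 0, fun x y => ⟨fun hxy => ?_, fun H => ?_⟩⟩
    · have hx : ∃ a, R x a := ⟨y, hxy⟩
      simp only [if_pos hx]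
      constructor
      · obtain ⟨ε, h0, h1, h2⟩ := q3 x y hxy
        have : sSup (Dn x) ≤ g y - ε := by
          refine csSup_le (Set.insert_nonempty _ _) ?_
          rintro _ (rfl | ⟨y', ⟨hy', a, ha, hlt⟩, rfl⟩)
          · linarith [(gb y).1]
          · have h3 : lt y' y := by
              rcases htot y' y (fun he => hy' (he ▸ hxy)) with h3 | h3
              · exact h3
              · exact (hy' (hcv x y a y' hxy ha h3 hlt)).elim
            have := h2 y' hy' h3
            have := p2 y' y h3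
            simp only [g]; linarith
        linarith
      · obtain ⟨ε, h0, h1, h2⟩ := p3 x y hxy
        have : g y + ε ≤ sInf (Up x) := by
          refine le_csInf (Set.insert_nonempty _ _) ?_
          rintro _ (rfl | ⟨y', ⟨hy', a, ha, hlt⟩, rfl⟩)
          · linarith [(gb y).2]
          · have h3 : lt y y' := by
              rcases htot y' y (fun he => hy' (he ▸ hxy)) with h3 | h3
              · exact (hy' (hcv x a y y' ha hxy hlt h3)).elim
              · exact h3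
            have := h2 y' hy' h3
            have := q2 y' y h3
            simp only [g]; linarith
        linarith
    · by_cases hx : ∃ a, R x a
      · simp only [if_pos hx] at H
        by_contra hy
        obtain ⟨a, ha⟩ := hx
        rcases htot a y (fun he => hy (he ▸ ha)) with h3 | h3
        · have : sInf (Up x) ≤ g y := csInf_le (hUp x) (Or.inr ⟨y, ⟨hy, a, ha, h3⟩, rfl⟩)
          linarith [H.2]
        · have : g y ≤ sSup (Dn x) := le_csSup (hDn x) (Or.inr ⟨y, ⟨hy, a, ha, h3⟩, rfl⟩)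
          linarith [H.1]
      · simp only [if_neg hx] at H
        linarith [H.1, H.2]

end Pool.Agent.Results.MP_a721b7_an.Full
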